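import Mathlib

namespace Pool.Agent.H.MP_c7f7e8_an

open Finset

def Ext (G : Type) [NormedAddCommGroup G] [NormedSpace ℝ G] : Prop :=
  ∀ ε > 0, ∀ (A : Submodule ℝ G) (B : Type) [NormedAddCommGroup B] [NormedSpace ℝ B]
    [FiniteDimensional ℝ B] (g : A →ₗᵢ[ℝ] B), ∃ f : B →ₗ[ℝ] G,
      (∀ b, ‖b‖ ≤ (1 + ε) * ‖f b‖ ∧ ‖f b‖ ≤ (1 + ε) * ‖b‖) ∧ ∀ a : A, ‖f (g a) - a‖ ≤ ε * ‖a‖

def sg (b : Bool) : ℝ := if b then 1 else -1

theorem sg_sq (b : Bool) : sg b ^ 2 = 1 := by cases b <;> simp [sg]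

theorem abs_sg (b : Bool) : |sg b| = 1 := by cases b <;> simp [sg]

theorem riesz (k : ℕ) (θ : ℝ) (hθ : k * θ ^ 2 ≤ 1) :
    ∃ F : (Fin k → Bool) → (Fin k → Bool) → ℝ, (∀ e, ‖F e‖ ≤ 2) ∧
      ∀ i, ∑ e, sg (e i) • F e = (2 ^ k * θ) • fun w => sg (w i) := by
  refine ⟨fun e w => (∏ j, (1 + (θ * sg (e j) * sg (w j) : ℝ) * Complex.I)).im, fun e => ?_,
    fun i => funext fun w => ?_⟩
  · refine (pi_norm_le_iff_of_nonneg (by norm_num)).2 fun w => (Complex.abs_im_le_norm _).trans ?_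
    refine (sq_le_sq₀ (norm_nonneg _) (by norm_num)).1 ?_
    rw [norm_prod, ← prod_pow]
    have : ∀ j, ‖(1 + (θ * sg (e j) * sg (w j) : ℝ) * Complex.I : ℂ)‖ ^ 2 ≤ Real.exp (θ ^ 2) := by
      intro j
      have := Complex.normSq_add_mul_I 1 (θ * sg (e j) * sg (w j))
      rw [Complex.ofReal_one] at this
      rw [Complex.sq_norm, this, mul_pow, mul_pow, sg_sq, sg_sq]
      linarith [Real.add_one_le_exp (θ ^ 2)]
    refine (prod_le_prod (fun j _ => by positivity) fun j _ => this j).trans ?_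
    rw [prod_const, card_univ, Fintype.card_fin, ← Real.exp_nat_mul]
    linarith [Real.exp_le_exp.2 hθ, Real.exp_one_lt_d9]
  · have h := prod_univ_sum (fun _ : Fin k => (univ : Finset Bool)) fun j s =>
      ((if j = i then sg s else 1 : ℝ) : ℂ) * (1 + (θ * sg s * sg (w j) : ℝ) * Complex.I)
    rw [Fintype.piFinset_univ] at h
    have h2 : ∀ j, ∑ s : Bool, ((if j = i then sg s else 1 : ℝ) : ℂ) *
        (1 + (θ * sg s * sg (w j) : ℝ) * Complex.I) =
        2 * if j = i then (θ * sg (w i) : ℝ) * Complex.I else 1 := by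
      intro j
      have e1 : sg true = 1 := rfl
      have e2 : sg false = -1 := rfl
      split_ifs with hj
      · subst hj; simp [e1, e2]; ring
      · simp [e1, e2]; ring
    simp only [h2, prod_mul_distrib, prod_const, card_univ, Fintype.card_fin, prod_ite_eq',
      mem_univ, if_true, ← Complex.ofReal_prod] at h
    have h3 := congrArg Complex.im h
    rw [Complex.im_sum] at h3
    simp only [Finset.sum_apply, Pi.smul_apply, smul_eq_mul, ← Complex.im_ofReal_mul]
    rw [← h3]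
    have : (2 : ℂ) ^ k = ((2 ^ k : ℝ) : ℂ) := by simp
    rw [this, Complex.im_ofReal_mul]
    simp [mul_assoc]

variable {G : Type} [NormedAddCommGroup G] [NormedSpace ℝ G]

theorem push {k : ℕ} (hG : Ext G) {ε : ℝ} (hε : 0 < ε) (a : Fin k → G) {C : ℝ} (C0 : 0 ≤ C)
    (ha : ∀ i, ‖a i‖ ≤ C) : ∃ R : ((Fin k → Bool) → ℝ) →ₗ[ℝ] G,
      (∀ w, ‖R w‖ ≤ (1 + ε) * (C * ‖w‖)) ∧ ∀ i, ‖R (fun w => sg (w i)) - a i‖ ≤ ε * C := by
  let E := Submodule.span ℝ (Set.range a)
  have : FiniteDimensional ℝ E := FiniteDimensional.span_of_finite ℝ (Set.finite_range a)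
  let a' : Fin k → E := fun i => ⟨a i, Submodule.subset_span ⟨i, rfl⟩⟩
  let W := WithLp 1 (E × ((Fin k → Bool) → ℝ))
  let ι : (E × ((Fin k → Bool) → ℝ)) →ₗ[ℝ] W := (WithLp.linearEquiv 1 ℝ _).symm.toLinearMap
  have nι : ∀ x y, ‖ι (x, y)‖ = ‖x‖ + ‖y‖ := fun x y => by
    simp [ι, W, WithLp.prod_norm_eq_of_L1]
  let v : Fin k → W := fun i => ι (a' i, -(C • fun w => sg (w i)))
  let N : Submodule ℝ W := Submodule.span ℝ (Set.range v)
  have : IsClosed (N : Set W) := N.closed_of_finiteDimensional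
  let g : E →ₗᵢ[ℝ] W ⧸ N := ⟨N.mkQ ∘ₗ ι ∘ₗ LinearMap.inl ℝ _ _, fun x => by
    refine le_antisymm ((Submodule.Quotient.norm_mk_le N _).trans (by
      simpa using (nι x 0).le)) (QuotientAddGroup.le_norm_iff.2 fun m hm => ?_)
    obtain ⟨c, hc⟩ := (Submodule.mem_span_range_iff_exists_fun ℝ).1
      ((Submodule.Quotient.eq N).1 hm)
    have e : m = ι (x + ∑ i, c i • a' i, -(C • ∑ i, c i • fun w => sg (w i))) := by
      rw [eq_comm, sub_eq_iff_eq_add'] at hc
      rw [hc]
      simp only [v, ← map_smul, ← map_sum, LinearMap.comp_apply, ← map_add]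
      congr 1
      ext <;> simp [Prod.fst_sum, Prod.snd_sum, mul_sum, mul_left_comm]
    have h1 : ‖∑ i, c i • a' i‖ ≤ C * ∑ i, |c i| := by
      rw [mul_sum]
      refine norm_sum_le_of_le _ fun i _ => ?_
      rw [norm_smul, mul_comm]
      exact mul_le_mul_of_nonneg_right (ha i) (abs_nonneg _)
    have h2 : ∑ i, |c i| ≤ ‖∑ i, c i • fun w : Fin k → Bool => sg (w i)‖ := by
      refine le_trans ?_ ((le_abs_self _).trans (norm_le_pi_norm
        (∑ i, c i • fun w : Fin k → Bool => sg (w i)) fun i => decide (0 ≤ c i)))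
      rw [Finset.sum_apply]
      refine sum_le_sum fun i _ => ?_
      by_cases h : 0 ≤ c i
      · simp [sg, h, abs_of_nonneg h]
      · simp [sg, h, abs_of_neg (not_le.1 h)]
    rw [e, nι, norm_neg, norm_smul, Real.norm_of_nonneg C0]
    have := norm_sub_le (x + ∑ i, c i • a' i) (∑ i, c i • a' i)
    rw [add_sub_cancel_right] at this
    nlinarith⟩
  obtain ⟨f, h1, h2⟩ := hG ε hε E (W ⧸ N) g
  refine ⟨f ∘ₗ N.mkQ ∘ₗ ι ∘ₗ LinearMap.inr ℝ _ _ ∘ₗ (C • LinearMap.id), fun w => ?_, fun i => ?_⟩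
  · refine (h1 _).2.trans (mul_le_mul_of_nonneg_left
      ((Submodule.Quotient.norm_mk_le N _).trans ?_) (by positivity))
    simpa [norm_smul, abs_of_nonneg C0] using (nι 0 (C • w)).le
  · have : N.mkQ (ι (0, C • fun w => sg (w i))) = g (a' i) := by
      refine ((Submodule.Quotient.eq N).2 ?_).symm
      have : v i ∈ N := Submodule.subset_span ⟨i, rfl⟩
      convert this using 1
      simp only [v, LinearMap.comp_apply, ← map_sub]
      simp
    refine le_trans ?_ ((h2 (a' i)).trans (mul_le_mul_of_nonneg_left (ha i) hε.le))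
    rw [← this]
    rfl

theorem noComp (hG : Ext G) {C : ℝ} (C0 : 0 < C)
    (h : ∀ k, ∃ (a : Fin k → G) (β : Fin k → G →L[ℝ] ℝ), (∀ i, ‖a i‖ ≤ C) ∧
      (∀ i, β i (a i) = 1) ∧ ∀ g, ∑ i, |β i g| ≤ C * ‖g‖) : False := by
  obtain ⟨m, hm⟩ := exists_nat_gt (4 * (C ^ 2 + 1))
  have m0 : (0 : ℝ) < m := lt_trans (by positivity) hm
  obtain ⟨a, β, h1, h2, h3⟩ := h (m ^ 2)
  obtain ⟨F, F1, F2⟩ := riesz (m ^ 2) (1 / m) (by push_cast; field_simp; rfl)
  obtain ⟨R, R1, R2⟩ := push hG (ε := 1 / (2 * C ^ 2)) (by positivity) a C0.le h1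
  have b1 : ∀ i g, |β i g| ≤ C * ‖g‖ := fun i g =>
    (single_le_sum (f := fun i => |β i g|) (fun i _ => abs_nonneg _) (mem_univ i)).trans (h3 g)
  have lo : ∀ i, 1 / 2 ≤ β i (R fun w => sg (w i)) := fun i => by
    have := (neg_abs_le _).trans' (neg_le_neg ((b1 i _).trans
      (mul_le_mul_of_nonneg_left (R2 i) C0.le)))
    rw [map_sub, h2] at this
    have e : C * (1 / (2 * C ^ 2) * C) = 1 / 2 := by field_simp
    linarith
  have up : ∀ e, ∑ i, sg (e i) * β i (R (F e)) ≤ 2 * C ^ 2 + 1 := fun e => by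
    refine (sum_le_sum fun i _ => (le_abs_self _).trans (by rw [abs_mul, abs_sg, one_mul])).trans
      ((h3 _).trans ((mul_le_mul_of_nonneg_left (R1 _) C0.le).trans ?_))
    calc _ ≤ C * ((1 + 1 / (2 * C ^ 2)) * (C * 2)) := by gcongr; exact F1 e
      _ = _ := by field_simp
  have s1 : ∑ e, ∑ i, sg (e i) * β i (R (F e)) =
      ∑ i, 2 ^ (m ^ 2) * (1 / m) * β i (R fun w => sg (w i)) := by
    rw [sum_comm]
    refine sum_congr rfl fun i _ => ?_
    have := congrArg (fun x => β i (R x)) (F2 i)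
    simpa only [map_sum, map_smul, smul_eq_mul] using this
  have s2 := sum_le_card_nsmul univ _ _ fun e _ => up e
  have s3 := card_nsmul_le_sum univ (fun i => 2 ^ (m ^ 2) * (1 / m) * β i (R fun w => sg (w i)))
    (2 ^ (m ^ 2) * (1 / m) * (1 / 2) : ℝ) fun i _ => by gcongr; exact lo i
  rw [s1] at s2
  have s4 := s3.trans s2
  simp only [card_univ, Fintype.card_fin, Fintype.card_fun, Fintype.card_bool, nsmul_eq_mul] at s4
  push_cast at s4
  have e : (m : ℝ) ^ 2 * (2 ^ (m ^ 2) * (1 / m) * (1 / 2)) = 2 ^ (m ^ 2) * (m / 2) := by field_simp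
  rw [e] at s4
  have := le_of_mul_le_mul_left s4 (by positivity)
  linarith

theorem infDim (hG : Ext G) : ¬ FiniteDimensional ℝ G := by
  intro h
  obtain ⟨f, h1, -⟩ := hG 1 one_pos ⊥ (Fin (Module.finrank ℝ G + 1) → ℝ)
    ⟨0, fun x => by rw [Subsingleton.elim x 0]; simp⟩
  have := LinearMap.finrank_le_finrank_of_injective (f := f)
    ((injective_iff_map_eq_zero f).2 fun b hb => by simpa [hb] using (h1 b).1)
  simp at this

theorem system [TopologicalSpace.SeparableSpace G] (h : ¬ FiniteDimensional ℝ G) :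
    ∃ (y : ℕ → G) (ψ : ℕ → G →L[ℝ] ℝ) (c : ℕ → ℕ →₀ ℝ), LinearIndependent ℝ y ∧
      Dense (Submodule.span ℝ (Set.range y) : Set G) ∧ (∀ m n, m < n → ψ n (y m) = 0) ∧
      (∀ n, ‖Finsupp.linearCombination ℝ y (c n)‖ ≤ 1) ∧
      ∀ n m, ψ m (Finsupp.linearCombination ℝ y (c n)) = if m = n then 1 else 0 := by
  obtain ⟨s, hs, hd⟩ := TopologicalSpace.exists_countable_dense G
  obtain ⟨b, b1, b2, b3⟩ := exists_linearIndependent ℝ s
  have hb : Dense (Submodule.span ℝ b : Set G) := b2 ▸ hd.mono Submodule.subset_span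
  have : Countable b := (hs.mono b1).to_subtype
  have : Infinite b := Set.infinite_coe_iff.2 fun hf => h (by
    have := FiniteDimensional.span_of_finite ℝ hf
    have e : Submodule.span ℝ b = ⊤ := SetLike.coe_injective
      ((Submodule.closed_of_finiteDimensional _).closure_eq.symm.trans hb.closure_eq)
    rw [e] at this
    exact Submodule.topEquiv.finiteDimensional)
  obtain ⟨e⟩ : Nonempty (ℕ ≃ b) := inferInstance
  set y : ℕ → G := fun n => e n with hy
  have li : LinearIndependent ℝ y := b3.comp e e.injective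
  have hr : Set.range y = b := by
    rw [show y = Subtype.val ∘ e from rfl, Set.range_comp, e.range_eq_univ]; simp
  have hψ : ∀ n, ∃ ψ : G →L[ℝ] ℝ, ψ (y n) = 1 ∧ ∀ m < n, ψ (y m) = 0 := by
    intro n
    let S := Submodule.span ℝ (y '' Set.Iio n)
    have : FiniteDimensional ℝ S := FiniteDimensional.span_of_finite ℝ ((Set.finite_Iio n).image y)
    have : IsClosed (S : Set G) := S.closed_of_finiteDimensional
    obtain ⟨φ, hφ⟩ := SeparatingDual.exists_eq_one (R := ℝ) (x := S.mkQL (y n))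
      (mt (Submodule.Quotient.mk_eq_zero S).1 (li.notMem_span_image (by simp)))
    refine ⟨φ.comp S.mkQL, hφ, fun m hm => ?_⟩
    have : S.mkQL (y m) = 0 :=
      (Submodule.Quotient.mk_eq_zero S).2 (Submodule.subset_span ⟨m, hm, rfl⟩)
    simp only [ContinuousLinearMap.comp_apply, this, map_zero]
  choose ψ ψ1 ψ2 using hψ
  have hc : ∀ n k, ∃ c : ℕ →₀ ℝ, ∀ m, n ≤ m + k →
      ψ m (Finsupp.linearCombination ℝ y c) = if m = n then 1 else 0 := by
    intro n k
    induction k with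
    | zero =>
      refine ⟨Finsupp.single n 1, fun m hm => ?_⟩
      rw [Finsupp.linearCombination_single, one_smul]
      split_ifs with h
      · rw [h, ψ1]
      · exact ψ2 _ _ (by omega)
    | succ k ih =>
      obtain ⟨c, hc⟩ := ih
      by_cases hk : n ≤ k
      · exact ⟨c, fun m _ => hc m (by omega)⟩
      refine ⟨c - Finsupp.single (n - k - 1) (ψ (n - k - 1) (Finsupp.linearCombination ℝ y c)),
        fun m hm => ?_⟩
      rw [map_sub, map_sub, Finsupp.linearCombination_single, map_smul, smul_eq_mul]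
      by_cases h : m = n - k - 1
      · rw [← h, ψ1, if_neg (by omega)]; simp
      · rw [ψ2 m _ (by omega), hc m (by omega)]; simp
  choose c hc using fun n => hc n n
  let t : ℕ → ℝ := fun n => ‖Finsupp.linearCombination ℝ y (c n)‖ + 1
  have t0 : ∀ n, 0 < t n := fun n => by positivity
  refine ⟨y, fun n => t n • ψ n, fun n => (t n)⁻¹ • c n, li, hr ▸ hb, fun m n h => by
    simp [ψ2 n m h], fun n => ?_, fun n m => ?_⟩
  · rw [map_smul, norm_smul, norm_inv, Real.norm_of_nonneg (t0 n).le, inv_mul_le_one₀ (t0 n)]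
    simp [t]
  · simp only [map_smul, smul_apply, smul_eq_mul, hc n m (by omega)]
    split_ifs with h
    · rw [h, mul_one, inv_mul_cancel₀ (t0 n).ne']
    · simp

theorem ext {V X Z : Type} [AddCommGroup V] [Module ℚ V] [NormedAddCommGroup X] [NormedSpace ℝ X]
    [NormedAddCommGroup Z] [NormedSpace ℝ Z] [CompleteSpace Z] (j : V →+ X) (hj : DenseRange j)
    (J : V →+ Z) (h : ∀ v, ‖J v‖ ≤ ‖j v‖) :
    ∃ T : X →L[ℝ] Z, (∀ v, T (j v) = J v) ∧ ∀ x, ‖T x‖ ≤ ‖x‖ := by
  let _ : NormedSpace ℚ X := NormedSpace.restrictScalars ℚ ℝ X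
  let _ : NormedSpace ℚ Z := NormedSpace.restrictScalars ℚ ℝ Z
  have h' : ∀ v, ‖J.toRatLinearMap v‖ ≤ 1 * ‖j.toRatLinearMap v‖ := fun v => by simpa using h v
  let T := J.toRatLinearMap.extendOfNorm j.toRatLinearMap
  refine ⟨T.toAddMonoidHom.toRealLinearMap T.continuous, fun v =>
    LinearMap.extendOfNorm_eq (e := j.toRatLinearMap) hj ⟨1, h'⟩ v, fun x => ?_⟩
  simpa using LinearMap.norm_extendOfNorm_apply_le (e := j.toRatLinearMap) hj 1 h' x

theorem notG : ¬ IsGδ {σ : ℕ → Bool | {n | σ n = true}.Finite} := by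
  intro h
  have d1 : Dense {σ : ℕ → Bool | {n | σ n = true}.Finite} := fun σ => by
    refine mem_closure_of_tendsto (f := fun N n => if n < N then σ n else false) (b := .atTop)
      (tendsto_pi_nhds.2 fun n => tendsto_const_nhds.congr' ?_) (.of_forall fun N => ?_)
    · filter_upwards [Filter.eventually_gt_atTop n] with N hN using by simp [hN]
    · exact (Set.finite_Iio N).subset fun n hn => by
        by_contra h
        simp [show ¬ n < N from h] at hn
  have d2 : Dense (⋂ N : ℕ, {σ : ℕ → Bool | ∃ n, N ≤ n ∧ σ n = true}) ∧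
      IsGδ (⋂ N : ℕ, {σ : ℕ → Bool | ∃ n, N ≤ n ∧ σ n = true}) := by
    have o : ∀ N : ℕ, IsOpen {σ : ℕ → Bool | ∃ n, N ≤ n ∧ σ n = true} := fun N => by
      simp only [Set.ofPred_exists, Set.ofPred_and]
      exact isOpen_iUnion fun n => isOpen_const.inter
        ((isOpen_discrete {b | b = true}).preimage (f := fun σ : ℕ → Bool => σ n)
          (continuous_apply n))
    refine ⟨fun σ => ?_, .iInter_of_isOpen o⟩
    refine mem_closure_of_tendsto (f := fun N n => if n < N then σ n else true) (b := .atTop)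
      (tendsto_pi_nhds.2 fun n => tendsto_const_nhds.congr' ?_) (.of_forall fun N => ?_)
    · filter_upwards [Filter.eventually_gt_atTop n] with N hN using by simp [hN]
    · exact Set.mem_iInter.2 fun M => ⟨M + N, by omega, by simp⟩
  obtain ⟨σ, h1, h2⟩ := (d1.inter_of_Gδ h d2.2 d2.1).nonempty
  obtain ⟨N, hN⟩ := Set.Finite.bddAbove h1
  obtain ⟨n, h3, h4⟩ := Set.mem_iInter.1 h2 (N + 1)
  have := hN h4
  omega

end Pool.Agent.H.MP_c7f7e8_an
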