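import Mathlib
import Pool.Agent.H.MP_c7f7e8_an.A

namespace Pool.Agent.H.MP_c7f7e8_an

open Finset

section
variable {Z : Type} [NormedAddCommGroup Z] [NormedSpace ℝ Z]

noncomputable def JJ (z : ℕ → Z) : (ℕ →₀ ℚ) →+ Z :=
  (Finsupp.linearCombination ℝ z).toAddMonoidHom.comp
    (Finsupp.mapRange.addMonoidHom (Rat.castHom ℝ).toAddMonoidHom)

theorem JJ_single (z : ℕ → Z) (n : ℕ) (q : ℚ) : JJ z (Finsupp.single n q) = (q : ℝ) • z n := by
  simp [JJ]

theorem JJ_eq (z : ℕ → Z) (v : ℕ →₀ ℚ) : JJ z v = ∑ m ∈ v.support, (v m : ℝ) • z m := by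
  conv_lhs => rw [← Finsupp.sum_single v, Finsupp.sum, map_sum]
  simp only [JJ_single]

abbrev XX (z : ℕ → Z) : Submodule ℝ Z := (Submodule.span ℝ (Set.range z)).topologicalClosure

theorem mem_XX {z : ℕ → Z} {x : Z} (h : x ∈ Submodule.span ℝ (Set.range z)) : x ∈ XX z :=
  Submodule.le_topologicalClosure _ h

noncomputable def jj (z : ℕ → Z) : (ℕ →₀ ℚ) →+ XX z :=
  (JJ z).codRestrict (XX z) fun v => mem_XX (by
    rw [JJ_eq]
    exact Submodule.sum_mem _ fun m _ => Submodule.smul_mem _ _ (Submodule.subset_span ⟨m, rfl⟩))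

theorem jj_dense (z : ℕ → Z) : DenseRange (jj z) := by
  have h : (Submodule.span ℝ (Set.range z) : Set Z) ⊆ closure (Set.range (JJ z)) := by
    intro x hx
    induction hx using Submodule.span_induction with
    | mem x hx =>
      obtain ⟨n, rfl⟩ := hx
      exact subset_closure ⟨Finsupp.single n 1, by simp [JJ_single]⟩
    | zero => exact subset_closure ⟨0, map_zero _⟩
    | add x y _ _ hx hy => exact (JJ z).range.topologicalClosure.add_mem hx hy
    | smul c x _ hx =>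
      refine Rat.denseRange_cast.induction_on (p := fun c : ℝ => c • x ∈ closure _) c
        (isClosed_closure.preimage (by fun_prop)) fun q => ?_
      refine map_mem_closure (f := fun x : Z => (q : ℝ) • x) (by fun_prop) hx ?_
      rintro _ ⟨v, rfl⟩
      exact ⟨q • v, map_ratCast_smul (JJ z) ℚ ℝ q v⟩
  intro x
  rw [Topology.IsInducing.subtypeVal.closure_eq_preimage_closure_image, ← Set.range_comp]
  exact closure_minimal h isClosed_closure x.2

theorem jj_li {z : ℕ → Z} (h : LinearIndependent ℝ z) :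
    LinearIndependent ℝ fun n => jj z (Finsupp.single n 1) := by
  refine LinearIndependent.of_comp (XX z).subtype ?_
  convert h using 1
  funext n
  exact (JJ_single z n 1).trans (by simp)

end

abbrev L1 := lp (fun _ : ℕ => ℝ) 1

variable {G : Type} [NormedAddCommGroup G] [NormedSpace ℝ G] (y : ℕ → G) (ψ : ℕ → G →L[ℝ] ℝ)

noncomputable def zz (σ : ℕ → Bool) (m : ℕ) : G × L1 :=
  (y m, ∑ n ∈ range (m + 1), (if σ n then ψ n (y m) else 0) • lp.single 1 n (1 : ℝ))

theorem zz_cont (v : ℕ →₀ ℚ) : Continuous fun σ => ‖JJ (zz y ψ σ) v‖ := by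
  simp only [JJ_eq]
  refine (continuous_finsetSum _ fun m _ => Continuous.const_smul
    (g := fun σ => zz y ψ σ m) ?_ (v m : ℝ)).norm
  refine continuous_const.prodMk (continuous_finsetSum _ fun n _ => ?_)
  exact (continuous_of_discreteTopology (f := fun b : Bool =>
    (if b then ψ n (y m) else 0) • (lp.single 1 n (1 : ℝ) : L1))).comp (continuous_apply n)

theorem zz_li (h : LinearIndependent ℝ y) (σ : ℕ → Bool) : LinearIndependent ℝ (zz y ψ σ) :=
  LinearIndependent.of_comp (LinearMap.fst ℝ G L1) h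

theorem sum_ap (s : Finset ℕ) (c : ℕ → ℝ) (n : ℕ) :
    (∑ i ∈ s, c i • (lp.single 1 i (1 : ℝ) : L1)) n = if n ∈ s then c n else 0 := by
  rw [lp.coeFn_sum, Finset.sum_apply]
  simp [lp.single_apply, Pi.single_apply]

variable {y ψ}

theorem graph (h : ∀ m n, m < n → ψ n (y m) = 0) (σ : ℕ → Bool) {w : G × L1}
    (hw : w ∈ XX (zz y ψ σ)) (n : ℕ) : w.2 n = if σ n then ψ n w.1 else 0 := by
  let φ : G × L1 →L[ℝ] ℝ := (lp.evalCLM ℝ (fun _ : ℕ => ℝ) 1 n).comp (.snd ℝ G L1) -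
    if σ n then (ψ n).comp (.fst ℝ G L1) else 0
  have e : ∀ w, φ w = w.2 n - if σ n then ψ n w.1 else 0 := fun w => by
    simp only [φ]; split_ifs <;> rfl
  have : XX (zz y ψ σ) ≤ φ.ker := by
    refine Submodule.topologicalClosure_minimal _ (Submodule.span_le.2 ?_) φ.isClosed_ker
    rintro _ ⟨m, rfl⟩
    change φ _ = 0
    rw [e, zz, sum_ap, sub_eq_zero]
    by_cases hn : n ∈ range (m + 1)
    · rw [if_pos hn]
    · rw [if_neg hn, h m n (by simpa using hn)]; simp
  exact sub_eq_zero.1 ((e w).symm.trans (this hw))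

theorem fin_iso (hd : Dense (Submodule.span ℝ (Set.range y) : Set G))
    (h : ∀ m n, m < n → ψ n (y m) = 0) {σ : ℕ → Bool} (hσ : {n | σ n = true}.Finite) :
    Nonempty (XX (zz y ψ σ) ≃L[ℝ] G) := by
  let Φ : G →L[ℝ] G × L1 := (ContinuousLinearMap.id ℝ G).prod
    (∑ n ∈ hσ.toFinset, (ψ n).smulRight (lp.single 1 n (1 : ℝ)))
  have e : ∀ g n, (Φ g).2 n = if σ n then ψ n g else 0 := fun g n => by
    have := sum_ap hσ.toFinset (fun i => ψ i g) n
    simp only [Set.Finite.mem_toFinset, Set.mem_ofPred_eq] at this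
    rw [← this]
    simp [Φ]
  have e2 : ∀ w ∈ XX (zz y ψ σ), Φ w.1 = w := fun w hw =>
    Prod.ext rfl (lp.ext (funext fun n => by rw [e, graph h σ hw]))
  have e3 : ∀ g, Φ g ∈ XX (zz y ψ σ) := fun g => by
    refine map_mem_closure Φ.continuous (hd g) fun x hx => ?_
    have : Submodule.span ℝ (Set.range y) ≤ (Submodule.span ℝ (Set.range (zz y ψ σ))).comap
        Φ.toLinearMap := by
      refine Submodule.span_le.2 ?_
      rintro _ ⟨m, rfl⟩
      have := e2 _ (mem_XX (Submodule.subset_span ⟨m, rfl⟩))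
      exact Submodule.subset_span ⟨m, this.symm⟩
    exact this hx
  exact ⟨ContinuousLinearEquiv.equivOfInverse
    ((ContinuousLinearMap.fst ℝ G L1).comp (XX (zz y ψ σ)).subtypeL) (Φ.codRestrict _ e3)
    (fun w => Subtype.ext (e2 w w.2)) fun g => rfl⟩

theorem inf_not [CompleteSpace G] (hG : Ext G) {c : ℕ → ℕ →₀ ℝ}
    (h : ∀ m n, m < n → ψ n (y m) = 0) (h1 : ∀ n, ‖Finsupp.linearCombination ℝ y (c n)‖ ≤ 1)
    (h2 : ∀ n m, ψ m (Finsupp.linearCombination ℝ y (c n)) = if m = n then 1 else 0)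
    {σ : ℕ → Bool} (hσ : {n | σ n = true}.Infinite) {X : Type} [NormedAddCommGroup X]
    [NormedSpace ℝ X] [CompleteSpace X] (j : (ℕ →₀ ℚ) →+ X) (hj : DenseRange j)
    (hn : ∀ v, ‖j v‖ = ‖JJ (zz y ψ σ) v‖) (e : X ≃L[ℝ] G) : False := by
  obtain ⟨T, T1, T2⟩ := ext j hj (JJ (zz y ψ σ)) fun v => (hn v).ge
  obtain ⟨S, S1, S2⟩ := ext (jj (zz y ψ σ)) (jj_dense _) j fun v => (hn v).le
  have TS : ∀ w, T (S w) = w := fun w => (jj_dense _).induction_on w
    (isClosed_eq (by fun_prop) (by fun_prop)) fun v => by rw [S1, T1]; rfl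
  let U : ℕ → XX (zz y ψ σ) := fun n => ⟨Finsupp.linearCombination ℝ (zz y ψ σ) (c n),
    mem_XX (by rw [← Finsupp.range_linearCombination]; exact ⟨_, rfl⟩)⟩
  have U1 : ∀ n, (U n).1.1 = Finsupp.linearCombination ℝ y (c n) := fun n =>
    Finsupp.apply_linearCombination ℝ (LinearMap.fst ℝ G L1) _ _
  have U2 : ∀ n, σ n = true → (U n).1.2 = lp.single 1 n (1 : ℝ) := fun n hn =>
    lp.ext (funext fun m => by
      rw [graph h σ (U n).2, U1, h2, lp.single_apply, Pi.single_apply]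
      split_ifs <;> simp_all)
  have U3 : ∀ n, σ n = true → ‖U n‖ ≤ 1 := fun n hn => by
    change max ‖(U n).1.1‖ ‖(U n).1.2‖ ≤ 1
    rw [U1, U2 n hn, lp.norm_single one_pos]
    exact max_le (h1 n) (by simp)
  let ν := hσ.natEmbedding
  set C := ‖(e : X →L[ℝ] G)‖ + ‖(e.symm : G →L[ℝ] X)‖ + 1 with hC
  have c1 := norm_nonneg (e : X →L[ℝ] G)
  have c2 := norm_nonneg (e.symm : G →L[ℝ] X)
  refine noComp hG (C := C) (by positivity) fun k => ⟨fun i => e (S (U (ν i))),
    fun i => (lp.evalCLM ℝ (fun _ : ℕ => ℝ) 1 (ν i)).comp ((ContinuousLinearMap.snd ℝ G L1).comp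
      (T.comp (e.symm : G →L[ℝ] X))), fun i => ?_, fun i => ?_, fun g => ?_⟩
  · refine ((e : X →L[ℝ] G).le_of_opNorm_le_of_le le_rfl ((S2 _).trans (U3 _ (ν i).2))).trans ?_
    linarith
  · change (T (e.symm (e _))).2 (ν i) = 1
    rw [e.symm_apply_apply, TS, U2 _ (ν i).2, lp.single_apply_self]
  · have a1 := lp.sum_rpow_le_norm_rpow (p := 1) (by simp) (T (e.symm g)).2
      (univ.image fun i : Fin k => (ν i : ℕ))
    rw [sum_image fun i _ i' _ hh => Fin.ext (ν.injective (Subtype.ext hh))] at a1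
    simp only [ENNReal.toReal_one, Real.rpow_one, Real.norm_eq_abs] at a1
    refine a1.trans ((norm_snd_le _).trans ((T2 _).trans
      (((e.symm : G →L[ℝ] X).le_opNorm g).trans ?_)))
    gcongr
    linarith

end Pool.Agent.H.MP_c7f7e8_an
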